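import Mathlib

open MeasureTheory Filter Topology Set Real
open scoped ContDiff

namespace Pool.Agent.H.MP_13e997_an

noncomputable def heat (a b c : ℝ → ℝ) (v : ℝ → ℝ → ℝ) (x t : ℝ) : ℝ :=
  deriv (v x) t - a x * deriv (deriv (v · t)) x + b x * deriv (v · t) x + c x * v x t

def Reg (v : ℝ → ℝ → ℝ) : Prop :=
  ∀ t, 0 < t → Differentiable ℝ (v · t) ∧ Differentiable ℝ (deriv (v · t)) ∧ ∀ x, DifferentiableAt ℝ (v x) t

def Super (a b c : ℝ → ℝ) (v : ℝ → ℝ → ℝ) : Prop :=
  ContinuousOn (Function.uncurry v) (univ ×ˢ Ici 0) ∧ Reg v ∧ (∀ x t, 0 ≤ t → 0 ≤ v x t) ∧ ∀ x t, 0 < t → 0 ≤ heat a b c v x t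

def Sol (a b c : ℝ → ℝ) (v : ℝ → ℝ → ℝ) : Prop :=
  Reg v ∧ ContinuousOn (fun p : ℝ × ℝ => deriv (v p.1) p.2) (univ ×ˢ Ioi 0) ∧ ∀ x t, 0 < t → heat a b c v x t = 0

noncomputable def evol (k : ℝ → ℝ → ℝ → ℝ) (f : ℝ → ℝ) (x t : ℝ) : ℝ := if t = 0 then f x else ∫ y, k x y t * f y

def HK (a b c : ℝ → ℝ) (k : ℝ → ℝ → ℝ → ℝ) : Prop :=
  (∀ x y t, 0 < t → 0 < k x y t) ∧ ContinuousOn (fun p : ℝ × ℝ × ℝ => k p.1 p.2.1 p.2.2) {p | 0 < p.2.2} ∧
    (∀ y, Sol a b c fun x t => k x y t) ∧ ∀ f : ℝ → ℝ, Continuous f → HasCompactSupport f → (∀ x, 0 ≤ f x) →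
      ContinuousOn (Function.uncurry (evol k f)) (univ ×ˢ Ici 0) ∧ Sol a b c (evol k f) ∧
        ∀ v, Super a b c v → (∀ x, f x ≤ v x 0) → ∀ x t, 0 < t → evol k f x t ≤ v x t

def Subcrit (k : ℝ → ℝ → ℝ → ℝ) : Prop := ∀ x y, x ≠ y → ∫⁻ t in Ioi 0, ENNReal.ofReal (k x y t) < ⊤

variable {a b c f : ℝ → ℝ} {k : ℝ → ℝ → ℝ → ℝ}

theorem HK.cy (h : HK a b c k) (x : ℝ) {t : ℝ} (t0 : 0 < t) : Continuous (k x · t) :=
  h.2.1.comp_continuous (f := fun y => (x, y, t)) (by fun_prop) fun _ => t0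

theorem HK.nn (h : HK a b c k) (f0 : ∀ x, 0 ≤ f x) (x : ℝ) {t : ℝ} (t0 : 0 ≤ t) : 0 ≤ evol k f x t := by
  unfold evol; split_ifs with e
  · exact f0 x
  · exact integral_nonneg fun y => mul_nonneg (h.1 x y t (t0.lt_of_ne' e)).le (f0 y)

theorem second {F : ℝ → ℝ} {x : ℝ} (h : IsLocalMin F x) (hc : ContinuousAt F x) : deriv F x = 0 ∧ 0 ≤ deriv (deriv F) x := by
  refine ⟨h.deriv_eq_zero, not_lt.1 fun e => ?_⟩
  have m := isLocalMax_of_deriv_deriv_neg e h.deriv_eq_zero hc
  have : F =ᶠ[𝓝 x] fun _ => F x := (h.and m).mono fun y hy => le_antisymm hy.2 hy.1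
  rw [this.deriv.deriv_eq] at e
  simp at e

theorem leftd {F : ℝ → ℝ} {t d : ℝ} (h : HasDerivAt F d t) (m : ∀ᶠ s in 𝓝[<] t, F t ≤ F s) : d ≤ 0 :=
  le_of_tendsto (hasDerivAt_iff_tendsto_slope_left_right.1 h).1 ((m.and self_mem_nhdsWithin).mono fun s hs => by
    rw [slope_def_field]; exact div_nonpos_of_nonneg_of_nonpos (sub_nonneg.2 hs.1) (sub_nonpos.2 (le_of_lt hs.2)))

theorem pull {G : ℝ → ℝ → ℝ} {GX GXX Gt : ℝ → ℝ} {t : ℝ} (h1 : ∀ X, HasDerivAt (G · t) (GX X) X) (h2 : ∀ X, HasDerivAt GX (GXX X) X)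
    (h3 : ∀ X, HasDerivAt (G X) (Gt X) t) : (Differentiable ℝ (fun x => G (exp x) t) ∧
      Differentiable ℝ (deriv fun x => G (exp x) t) ∧ ∀ x, DifferentiableAt ℝ (G (exp x)) t) ∧
      ∀ x, heat (fun x => exp (-2 * x)) (fun x => exp (-2 * x)) 0 (fun x t => G (exp x) t) x t = Gt (exp x) - GXX (exp x) := by
  have d1 : ∀ x, HasDerivAt (fun x => G (exp x) t) (GX (exp x) * exp x) x := fun x => (h1 _).comp x (hasDerivAt_exp x)
  have e1 : deriv (fun x => G (exp x) t) = fun x => GX (exp x) * exp x := funext fun x => (d1 x).deriv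
  have d2 : ∀ x, HasDerivAt (fun x => GX (exp x) * exp x) (GXX (exp x) * exp x * exp x + GX (exp x) * exp x) x :=
    fun x => ((h2 _).comp x (hasDerivAt_exp x)).mul (hasDerivAt_exp x)
  refine ⟨⟨fun x => (d1 x).differentiableAt, e1 ▸ fun x => (d2 x).differentiableAt, fun x => (h3 _).differentiableAt⟩, fun x => ?_⟩
  have e : exp (-2 * x) * (exp x * exp x) = 1 := by rw [← exp_add, ← exp_add, ← exp_zero]; congr 1; ring
  simp only [heat, e1, (d2 x).deriv, (h3 _).deriv, Pi.zero_apply]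
  linear_combination (-GXX (exp x)) * e

noncomputable def Ga (z t : ℝ) : ℝ := exp (-z ^ 2 / (4 * t)) / √t

theorem Ga_d {t : ℝ} (t0 : 0 < t) (z : ℝ) : HasDerivAt (Ga · t) (-z / (2 * t) * Ga z t) z ∧
    HasDerivAt (fun z => -z / (2 * t) * Ga z t) ((z ^ 2 / (4 * t ^ 2) - 1 / (2 * t)) * Ga z t) z ∧
    HasDerivAt (Ga z) ((z ^ 2 / (4 * t ^ 2) - 1 / (2 * t)) * Ga z t) t := by
  have s0 := sqrt_pos.2 t0
  have d1 : HasDerivAt (Ga · t) (-z / (2 * t) * Ga z t) z :=
    (((hasDerivAt_pow 2 z).neg.div_const (4 * t)).exp.div_const √t).congr_deriv (by simp [Ga]; field_simp; norm_num)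
  refine ⟨d1, (((hasDerivAt_id z).neg.div_const (2 * t)).mul d1).congr_deriv (by simp; field_simp; ring),
    (((hasDerivAt_const t (-z ^ 2)).fun_div ((hasDerivAt_id t).const_mul 4) (by positivity)).exp.fun_div
      (hasDerivAt_sqrt t0.ne') s0.ne').congr_deriv ?_⟩
  have q := sq_sqrt t0.le
  simp only [Ga, id]
  generalize exp _ = E
  generalize √t = s at *
  subst q
  field_simp
  ring

theorem Ga_c (τ : ℝ) (τ0 : 0 < τ) (Y : ℝ) : ContinuousOn (fun p : ℝ × ℝ => Ga (exp p.1 + Y) (p.2 + τ)) (univ ×ˢ Ici 0) := by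
  unfold Ga
  refine ContinuousOn.div (ContinuousOn.rexp (ContinuousOn.div (by fun_prop) (by fun_prop) fun p hp => ?_)) (by fun_prop)
    fun p hp => ?_ <;> have : 0 ≤ p.2 := hp.2 <;> positivity

theorem Ga_le {X Y t : ℝ} (X0 : 0 < X) (Y0 : 0 < Y) (t0 : 0 < t) : 0 ≤ Ga (X + -Y) t - Ga (X + Y) t ∧
    Ga (X + -Y) t - Ga (X + Y) t ≤ X * Y / t * Ga (X + -Y) t := by
  have e : Ga (X + Y) t = exp (-(X * Y / t)) * Ga (X + -Y) t := by
    rw [Ga, Ga, ← mul_div_assoc, ← exp_add]; congr 2; field_simp; ring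
  have p : 0 < Ga (X + -Y) t := div_pos (exp_pos _) (sqrt_pos.2 t0)
  have a := exp_le_one_iff.2 (neg_nonpos.2 (by positivity : 0 ≤ X * Y / t))
  have b := add_one_le_exp (-(X * Y / t))
  rw [e]; constructor <;> nlinarith

theorem ptw (h : HK (fun x => exp (-2 * x)) (fun x => exp (-2 * x)) 0 k) (y : ℝ) : ∃ C, ∀ x t, 0 < t →
    k x y t ≤ C * (Ga (exp x + -exp y) t - Ga (exp x + exp y) t) := by
  refine ⟨2 * exp ((exp (y + 1)) ^ 2), fun x t t0 => ?_⟩
  have c1 : ∀ Y, Tendsto (fun r : ℝ => Ga (exp x + Y) (t + r ^ 2)) (𝓝[>] 0) (𝓝 (Ga (exp x + Y) t)) := fun Y =>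
    ((Ga_d t0 _).2.2.continuousAt.tendsto.comp (Continuous.tendsto' (by fun_prop) 0 t (by simp))).mono_left nhdsWithin_le_nhds
  refine le_of_forall_lt_imp_le_of_dense fun κ hκ => ge_of_tendsto (((c1 _).sub (c1 _)).const_mul _) ?_
  obtain ⟨ε, e0, he⟩ := Metric.eventually_nhds_iff.1 ((h.cy x t0).continuousAt.eventually (lt_mem_nhds hκ))
  have Y0 := exp_pos y
  filter_upwards [Ioo_mem_nhdsGT (lt_min (lt_min e0 one_pos) (half_pos (exp_pos (y - 1))))] with r ⟨r0, hr⟩
  simp only [lt_min_iff] at hr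
  let f (z : ℝ) := max 0 (r - |z - y|) / r ^ 2
  have f0 : ∀ z, 0 ≤ f z := fun z => by positivity
  have f1 : ∀ z, r ≤ |z - y| → f z = 0 := fun z hz => by simp [f, hz]
  have fc : Continuous f := by fun_prop
  have fs : HasCompactSupport f := .intro (isCompact_Icc (a := y - r) (b := y + r)) fun z hz => f1 z (not_lt.1 fun e =>
    hz ⟨by linarith [(abs_lt.1 e).1], by linarith [(abs_lt.1 e).2]⟩)
  have P := fun t (t0 : 0 < t) => pull (G := fun X t => 2 * exp ((exp (y + 1)) ^ 2) * (Ga (X + -exp y) (t + r ^ 2) - Ga (X + exp y) (t + r ^ 2)))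
    (t := t) (fun X => (((Ga_d (by positivity) _).1.comp_add_const X _).sub ((Ga_d (by positivity) _).1.comp_add_const X _)).const_mul _)
    (fun X => (((Ga_d (by positivity) _).2.1.comp_add_const X _).sub ((Ga_d (by positivity) _).2.1.comp_add_const X _)).const_mul _)
    (fun X => (((Ga_d (by positivity) _).2.2.comp_add_const t _).sub ((Ga_d (by positivity) _).2.2.comp_add_const t _)).const_mul _)
  have := (h.2.2.2 f fc fs f0).2.2 (fun x t => 2 * exp ((exp (y + 1)) ^ 2) * (Ga (exp x + -exp y) (t + r ^ 2) -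
    Ga (exp x + exp y) (t + r ^ 2))) ⟨(continuousOn_const (c := 2 * exp ((exp (y + 1)) ^ 2))).mul
      ((Ga_c (r ^ 2) (by positivity) (-exp y)).sub (Ga_c (r ^ 2) (by positivity) (exp y))),
    fun t t0 => (P t t0).1, fun x t t0 => mul_nonneg (by positivity) (Ga_le (exp_pos x) Y0 (by positivity)).1,
    fun x t t0 => by rw [(P t t0).2, sub_self]⟩ (fun z => ?_) x t t0
  · refine le_trans ?_ this
    rw [evol, if_neg t0.ne']
    have i : ∫ z, f z = 1 := by
      rw [← intervalIntegral.integral_eq_integral_of_support_subset (a := y - r) (b := y + r) fun z hz => by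
        have := abs_lt.1 (not_le.1 fun e => hz (f1 z e))
        exact ⟨by linarith, by linarith⟩, ← intervalIntegral.integral_add_adjacent_intervals (b := y) (fc.intervalIntegrable _ _)
        (fc.intervalIntegrable _ _), intervalIntegral.integral_congr (g := fun z => (z + (r - y)) / r ^ 2) fun z hz => by
          rw [uIcc_of_le (by linarith)] at hz
          simp only [f]; rw [abs_of_nonpos (by linarith [hz.2]), max_eq_right (by linarith [hz.1])]; ring,
        intervalIntegral.integral_congr (a := y) (g := fun z => ((r + y) - z) / r ^ 2) fun z hz => by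
          rw [uIcc_of_le (by linarith)] at hz
          simp only [f]; rw [abs_of_nonneg (by linarith [hz.1]), max_eq_right (by linarith [hz.2])]; ring]
      rw [intervalIntegral.integral_div, intervalIntegral.integral_div, intervalIntegral.integral_comp_sub_left (fun x => x),
        intervalIntegral.integral_comp_add_right (fun x => x), integral_id, integral_id]
      field_simp; ring
    rw [← mul_one κ, ← i, ← integral_const_mul]
    refine integral_mono ((fc.integrable_of_hasCompactSupport fs).const_mul κ)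
      (((h.cy x t0).mul fc).integrable_of_hasCompactSupport fs.mul_left) fun z => ?_
    rcases le_or_gt r |z - y| with e | e
    · simp [f1 z e]
    · exact mul_le_mul_of_nonneg_right (he (e.trans hr.1.1)).le (f0 z)
  · rcases le_or_gt r |z - y| with e | e
    · rw [f1 z e]; exact mul_nonneg (by positivity) (Ga_le (exp_pos z) Y0 (by positivity)).1
    have e' := abs_lt.1 e
    have g : Ga (exp z + exp y) (0 + r ^ 2) = exp (-(exp z * exp y / r ^ 2)) * Ga (exp z + -exp y) (0 + r ^ 2) := by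
      rw [Ga, Ga, ← mul_div_assoc, ← exp_add]; congr 2; field_simp; ring
    have g1 : exp (-(exp z * exp y / r ^ 2)) ≤ 1 / 2 := by
      have a1 := exp_le_exp.2 (by linarith : y - 1 ≤ z)
      have a2 := exp_le_exp.2 (by linarith : y - 1 ≤ y)
      have : 1 ≤ exp z * exp y / r ^ 2 := by rw [le_div_iff₀ (by positivity)]; nlinarith
      rw [exp_neg, one_div]
      exact inv_anti₀ two_pos (by linarith [add_one_le_exp (exp z * exp y / r ^ 2)])
    have g2 : (exp z + -exp y) ^ 2 ≤ (exp (y + 1) * r) ^ 2 := by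
      have k : ∀ p q : ℝ, p ≤ q → q ≤ y + 1 → q - p ≤ r → exp q - exp p ≤ exp (y + 1) * r := fun p q h1 h2 h3 => by
        have := mul_le_mul_of_nonneg_left (add_one_le_exp (p - q)) (exp_pos q).le
        rw [← exp_add, add_sub_cancel] at this
        nlinarith [exp_le_exp.2 h2, exp_pos q]
      refine sq_le_sq' ?_ ?_ <;> rcases le_total z y with l | l
      · linarith [k z y l (by linarith) (by linarith)]
      · nlinarith [exp_le_exp.2 l, exp_pos (y + 1)]
      · nlinarith [exp_le_exp.2 l, exp_pos (y + 1)]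
      · linarith [k y z l (by linarith) (by linarith)]
    have g3 : 1 / r ≤ exp (exp (y + 1) ^ 2) * Ga (exp z + -exp y) (0 + r ^ 2) := by
      rw [Ga, zero_add, sqrt_sq r0.le, ← mul_div_assoc, ← exp_add]
      refine div_le_div_of_nonneg_right (one_le_exp ?_) r0.le
      rw [neg_div, ← sub_eq_add_neg, sub_nonneg, div_le_iff₀ (by positivity)]
      nlinarith [sq_nonneg (exp (y + 1) * r)]
    have g4 : f z ≤ 1 / r := by
      rw [div_le_div_iff₀ (by positivity) r0]
      nlinarith [max_le r0.le (sub_le_self r (abs_nonneg (z - y)))]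
    have g5 := mul_le_mul_of_nonneg_left g1 ((one_div_pos.2 r0).le.trans g3)
    beta_reduce
    rw [g]
    nlinarith

theorem subc (h : HK (fun x => exp (-2 * x)) (fun x => exp (-2 * x)) 0 k) : Subcrit k := fun x y ne => by
  obtain ⟨C, hC⟩ := ptw h y
  have d0 : 0 < (exp x + -exp y) ^ 2 := by
    have : exp x + -exp y ≠ 0 := fun e => ne (exp_injective (by linarith))
    positivity
  have p := mul_pos (exp_pos x) (exp_pos y)
  have b : ∀ t, 0 < t → k x y t ≤ |C| * (exp x * exp y) * (exp (-(exp x + -exp y) ^ 2 / (4 * t)) / (t * √t)) := fun t t0 => by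
    have := Ga_le (exp_pos x) (exp_pos y) t0
    refine (hC x t t0).trans ((mul_le_mul (le_abs_self C) this.2 this.1 (abs_nonneg C)).trans_eq ?_)
    rw [Ga]; field_simp
  generalize (exp x + -exp y) ^ 2 = d at *
  rw [← Ioc_union_Ioi_eq_Ioi one_pos.le]
  refine (lintegral_union_le _ _ _).trans_lt (ENNReal.add_lt_top.2 ⟨?_, ?_⟩)
  · refine (setLIntegral_mono' (g := fun _ => ENNReal.ofReal (|C| * (exp x * exp y) * (32 / d ^ 2))) measurableSet_Ioc
      fun t ht => ENNReal.ofReal_le_ofReal ((b t ht.1).trans (mul_le_mul_of_nonneg_left ?_ (by positivity)))).trans_lt (by simp)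
    have t0 := ht.1
    have s0 := sqrt_pos.2 t0
    have a := quadratic_le_exp_of_nonneg (by positivity : 0 ≤ d / (4 * t))
    have a2 : (d / (4 * t)) ^ 2 / 2 ≤ exp (d / (4 * t)) := le_trans (le_add_of_nonneg_left (by positivity)) a
    rw [neg_div, exp_neg, inv_eq_one_div, div_div, div_le_div_iff₀ (by positivity) (by positivity)]
    have a3 : t ≤ √t := le_sqrt_of_sq_le (by nlinarith [ht.2])
    have a4 := mul_le_mul a2 (mul_le_mul_of_nonneg_left a3 t0.le) (by positivity) (exp_pos _).le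
    rw [show (d / (4 * t)) ^ 2 / 2 * (t * t) = d ^ 2 / 32 by field_simp; norm_num] at a4
    linarith
  · refine (setLIntegral_mono' (g := fun t => ENNReal.ofReal (|C| * (exp x * exp y) * t ^ (-3 / 2 : ℝ))) measurableSet_Ioi
      fun t ht => ENNReal.ofReal_le_ofReal ((b t (one_pos.trans (mem_Ioi.1 ht))).trans (mul_le_mul_of_nonneg_left ?_ (by positivity)))).trans_lt
      ((integrableOn_Ioi_rpow_of_lt (by norm_num) one_pos).const_mul _).lintegral_lt_top
    have t0 := one_pos.trans (mem_Ioi.1 ht)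
    rw [show (-3 / 2 : ℝ) = -(1 + 1 / 2) by norm_num, rpow_neg t0.le, rpow_add t0, rpow_one, ← sqrt_eq_rpow, inv_eq_one_div]
    exact div_le_div_of_nonneg_right (exp_le_one_iff.2 (div_nonpos_of_nonpos_of_nonneg (by linarith) (by positivity))) (by positivity)

theorem lower (h : HK (fun x => exp (-2 * x)) (fun x => exp (-2 * x)) 0 k) (fc : Continuous f) (fs : HasCompactSupport f)
    (f0 : ∀ x, 0 ≤ f x) (f1 : ∀ x ∈ Icc (0 : ℝ) 1, 1 ≤ f x) {T : ℝ} (T0 : 0 ≤ T) : 1 / 4 / (1 + T) ^ 16 ≤ evol k f (log (3 / 2)) T := by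
  obtain ⟨u1, ⟨u2, -, u3⟩, -⟩ := h.2.2.2 f fc fs f0
  have u0 := fun x t => h.nn f0 x (t := t)
  have u00 : ∀ x, evol k f x 0 = f x := fun x => if_pos rfl
  generalize evol k f = u at *
  let q (X t : ℝ) := (X - 1) * (1 - (X - 1) ^ 2 / (1 + t)) ^ 2 / (1 + t) ^ 16
  have P := fun t (t0 : 0 < t) => pull (G := q) (t := t)
    (GX := fun X => ((1 - (X - 1) ^ 2 / (1 + t)) ^ 2 - 4 * ((X - 1) ^ 2 / (1 + t)) * (1 - (X - 1) ^ 2 / (1 + t))) / (1 + t) ^ 16)
    (GXX := fun X => (X - 1) * (8 * ((X - 1) ^ 2 / (1 + t)) - 12 * (1 - (X - 1) ^ 2 / (1 + t))) / (1 + t) ^ 17)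
    (Gt := fun X => (X - 1) * (-16 * (1 - (X - 1) ^ 2 / (1 + t)) ^ 2 + 2 * ((X - 1) ^ 2 / (1 + t)) * (1 - (X - 1) ^ 2 / (1 + t))) /
      (1 + t) ^ 17)
    (fun X => ((((hasDerivAt_id X).sub_const 1).fun_mul (((((hasDerivAt_id X).sub_const 1).fun_pow 2).div_const _).const_sub 1
      |>.fun_pow 2)).div_const _).congr_deriv (by simp; field_simp; ring))
    (fun X => by
      have d := (((hasDerivAt_id X).sub_const 1).fun_pow 2).div_const (1 + t)
      exact ((((d.const_sub 1).fun_pow 2).fun_sub ((d.const_mul 4).fun_mul (d.const_sub 1))).div_const _).congr_deriv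
        (by simp; field_simp; ring))
    (fun X => by
      have d := (hasDerivAt_id t).const_add 1
      exact ((((((hasDerivAt_const t ((X - 1) ^ 2)).fun_div d (by positivity)).const_sub 1).fun_pow 2).const_mul (X - 1)).fun_div
        (d.fun_pow 16) (by positivity)).congr_deriv (by simp; field_simp; ring))
  let D : Set (ℝ × ℝ) := {p | 0 ≤ p.2 ∧ p.2 ≤ T ∧ 0 ≤ p.1 ∧ (exp p.1 - 1) ^ 2 ≤ 1 + p.2}
  have cD : IsCompact D := (isCompact_Icc.prod isCompact_Icc : IsCompact (Icc 0 (2 + T) ×ˢ Icc 0 T)).of_isClosed_subset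
    ((isClosed_le continuous_const continuous_snd).inter ((isClosed_le continuous_snd continuous_const).inter
      ((isClosed_le continuous_const continuous_fst).inter (isClosed_le (f := fun p : ℝ × ℝ => (exp p.1 - 1) ^ 2)
        (g := fun p => 1 + p.2) (by fun_prop) (by fun_prop))))) fun p ⟨a, b, c, d⟩ =>
      ⟨⟨c, by nlinarith [add_one_le_exp p.1, sq_nonneg (exp p.1 - 2)]⟩, a, b⟩
  have l : exp (log (3 / 2)) = 3 / 2 := exp_log (by norm_num)
  have m : (log (3 / 2), T) ∈ D := ⟨T0, le_rfl, log_nonneg (by norm_num), by simp only [l]; linarith⟩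
  have key : ∀ ε > 0, q (3 / 2) T ≤ u (log (3 / 2)) T + ε * T := fun ε e0 => by
    obtain ⟨⟨x, t⟩, ⟨p1, p2, p3, p4⟩, hp⟩ := cD.exists_isMinOn (f := fun p => u p.1 p.2 + ε * p.2 - q (exp p.1) p.2) ⟨_, m⟩
      (((u1.mono fun p hp => ⟨trivial, hp.1⟩).add (by fun_prop)).sub (ContinuousOn.div (ContinuousOn.mul (by fun_prop)
        (ContinuousOn.pow (continuousOn_const.sub (ContinuousOn.div (by fun_prop) (by fun_prop) fun p hp => by
          have := hp.1; positivity)) 2)) (by fun_prop) fun p hp => by have := hp.1; positivity))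
    have := hp m
    simp only [mem_ofPred_eq, l] at this p1 p2 p3 p4
    refine not_lt.1 fun no => ?_
    have neg : u x t + ε * t < q (exp x) t := by linarith
    have et := mul_nonneg e0.le p1
    have X1 := one_le_exp p3
    have q0 : 0 < q (exp x) t := by linarith [u0 x t p1]
    have x0 : 0 < x := p3.lt_of_ne fun e => by simp [q, ← e] at q0
    have b0 : (exp x - 1) ^ 2 < 1 + t := p4.lt_of_ne fun e => by simp [q, e, (by positivity : 1 + t ≠ 0)] at q0
    have t0 : 0 < t := p1.lt_of_ne fun e => by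
      subst e
      have := add_one_le_exp x
      have z : exp x - 1 ≤ 1 := by nlinarith
      have a := f1 x ⟨p3, by linarith⟩
      simp only [q, u00, add_zero, div_one, one_pow, mul_zero] at neg b0
      have : (1 - (exp x - 1) ^ 2) ^ 2 ≤ 1 := by nlinarith [sq_nonneg (exp x - 1)]
      nlinarith
    obtain ⟨⟨r1, r2, r3⟩, r4⟩ := P t t0
    obtain ⟨s1, s2, s3⟩ := u2 t t0
    have w1 := second (F := fun x => u x t + ε * t - q (exp x) t) (x := x) (((lt_mem_nhds x0).and
      (ContinuousAt.eventually_lt (f := fun x => (exp x - 1) ^ 2) (by fun_prop) continuousAt_const b0)).mono fun z hz =>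
        hp (a := (z, t)) ⟨p1, p2, hz.1.le, hz.2.le⟩) (((s1 x).add_const _).sub (r1 x)).continuousAt
    have w2 := leftd ((((s3 x).hasDerivAt.add ((hasDerivAt_id t).const_mul ε))).sub (r3 x).hasDerivAt) (by
      filter_upwards [self_mem_nhdsWithin, nhdsWithin_le_nhds (lt_mem_nhds t0), nhdsWithin_le_nhds
        (ContinuousAt.eventually_lt (g := fun s => 1 + s) continuousAt_const (by fun_prop) b0)] with s a b c
      exact hp (a := (x, s)) ⟨b.le, (le_of_lt a).trans p2, p3, c.le⟩)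
    have e1 : deriv (fun x => u x t + ε * t - q (exp x) t) = fun x => deriv (u · t) x - deriv (fun x => q (exp x) t) x :=
      funext fun z => (((s1 z).hasDerivAt.add_const _).sub (r1 z).hasDerivAt).deriv
    rw [e1, deriv_fun_sub (s2 x) (r2 x)] at w1
    have w3 := u3 x t t0
    have w4 := r4 x
    have w5 := mul_nonneg (exp_pos (-2 * x)).le w1.2
    have w6 : 0 ≤ (exp x - 1) * (16 * (1 - (exp x - 1) ^ 2 / (1 + t)) ^ 2 - 2 * ((exp x - 1) ^ 2 / (1 + t)) *
        (1 - (exp x - 1) ^ 2 / (1 + t)) + (8 * ((exp x - 1) ^ 2 / (1 + t)) - 12 * (1 - (exp x - 1) ^ 2 / (1 + t)))) / (1 + t) ^ 17 := by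
      refine div_nonneg (mul_nonneg (by linarith) ?_) (by positivity)
      have : 0 ≤ (exp x - 1) ^ 2 / (1 + t) := by positivity
      generalize (exp x - 1) ^ 2 / (1 + t) = y at *
      nlinarith [sq_nonneg (16 * y - 5), sq_nonneg y]
    simp only [heat, Pi.zero_apply, zero_mul, add_zero, sub_eq_zero.1 w1.1] at w3 w4
    have w7 : ∀ A B Z : ℝ, Z * A / (1 + t) ^ 17 - Z * B / (1 + t) ^ 17 = -(Z * (-A + B) / (1 + t) ^ 17) := fun A B Z => by ring
    rw [w7] at w4
    simp only [neg_add, neg_mul, neg_neg, ← sub_eq_add_neg] at w4 w3 w5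
    linarith
  have := ge_of_tendsto (f := fun ε : ℝ => u (log (3 / 2)) T + ε * T) (x := 𝓝[>] 0) (a := u (log (3 / 2)) T)
    ((Continuous.tendsto' (by fun_prop) 0 _ (by simp)).mono_left nhdsWithin_le_nhds) (eventually_nhdsWithin_of_forall key)
  refine le_trans (div_le_div_of_nonneg_right ?_ (by positivity)) this
  have : (3 / 2 - 1) ^ 2 / (1 + T) ≤ 1 / 4 := by rw [div_le_iff₀ (by positivity)]; linarith
  nlinarith

end Pool.Agent.H.MP_13e997_an
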