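import Pool.Agent.H.MP_13e997_an.A
import Pool.Agent.H.MP_ca5fa5_an.C

open MeasureTheory Filter Topology Set Real
open scoped ContDiff
open Pool.Agent.H.MP_ca5fa5_an (et th_d et0 et_t CC)

namespace Pool.Agent.H.MP_13e997_an

def Psi (K : ℝ) : Prop := ∃ Ψ Ψ1 Ψ2 : ℝ → ℝ, (∀ s, HasDerivAt Ψ (Ψ1 s) s) ∧ (∀ s, HasDerivAt Ψ1 (Ψ2 s) s) ∧
  (∀ s, -1 ≤ Ψ s ∧ 0 ≤ Ψ1 s ∧ Ψ2 s ≤ K) ∧ (∀ s, -1 / 2 < s → Ψ s = s ∧ Ψ1 s = 1 ∧ Ψ2 s = 0) ∧
  (∀ s ≤ -1 / 2, Ψ s ≤ -1 / 2) ∧ ∀ s < -1, Ψ2 s = 0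

theorem psi : ∃ K, 1 ≤ K ∧ Psi K := by
  obtain ⟨K1, k1⟩ := et_t.cc.1.bounded_above_of_compact_support et_t.2
  obtain ⟨K2, k2⟩ := et_t.d.cc.1.bounded_above_of_compact_support et_t.d.2
  have K10 := (norm_nonneg _).trans (k1 0)
  have K20 := (norm_nonneg _).trans (k2 0)
  have l : ∀ s : ℝ, HasDerivAt (fun s => 2 * s + 2) 2 s := fun s => by simpa using ((hasDerivAt_id s).const_mul 2).add_const 2
  refine ⟨4 * K1 + 4 * K2 + 1, by linarith, fun s => (s + 1) * smoothTransition (2 * s + 2) - 1,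
    fun s => smoothTransition (2 * s + 2) + (s + 1) * (et (2 * s + 2) * 2),
    fun s => 4 * et (2 * s + 2) + 4 * ((s + 1) * deriv et (2 * s + 2)), fun s => ?_, fun s => ?_, fun s => ?_, fun s h => ?_,
    fun s h => ?_, fun s h => ?_⟩
  · exact ((((hasDerivAt_id s).add_const 1).fun_mul ((th_d _).comp s (l s))).sub_const 1).congr_deriv (by simp)
  · exact (((th_d _).comp s (l s)).fun_add (((hasDerivAt_id s).add_const 1).fun_mul
      (((et_t.diff _).hasDerivAt.comp s (l s)).mul_const 2))).congr_deriv (by simp; ring)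
  · have n : 0 ≤ et (2 * s + 2) := smoothTransition.monotone.deriv_nonneg
    have n2 := smoothTransition.nonneg (2 * s + 2)
    by_cases h : 2 * s + 2 ∈ Icc (0 : ℝ) 1
    · have a := (abs_le.1 (k1 (2 * s + 2))).2
      have b := (abs_le.1 (k2 (2 * s + 2))).2
      have := h.1; have := h.2
      refine ⟨by nlinarith, by nlinarith, by nlinarith⟩
    · simp only [et0 h]
      refine ⟨?_, by simpa, by simp; positivity⟩
      rcases le_total 0 (s + 1) with e | e
      · nlinarith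
      · rw [smoothTransition.zero_of_nonpos (by linarith)]; simp
  · simp [et0 (y := 2 * s + 2) fun e => by linarith [e.2], smoothTransition.one_of_one_le (x := 2 * s + 2) (by linarith)]
  · have := smoothTransition.nonneg (2 * s + 2)
    have := smoothTransition.le_one (2 * s + 2)
    rcases le_total 0 (s + 1) with e | e <;> nlinarith
  · simp [et0 (y := 2 * s + 2) fun e => by linarith [e.1]]

noncomputable def B (K : ℝ) : ℕ → ℝ
  | 0 => 1
  | j + 1 => B K j + 8 * K * (j + 1) ^ 2 * B K j * exp (2 * B K j)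

noncomputable def tm (K : ℝ) (j : ℕ) (x : ℝ) : ℝ :=
  (B K (j + 1) - B K j) * smoothTransition (-2 * ((1 - x ^ 2 / (j + 1) ^ 2) * exp (B K j)))

noncomputable def mm (K x : ℝ) : ℝ := 1 + ∑' j, tm K j x

variable {K : ℝ} {f : ℝ → ℝ} {k : ℝ → ℝ → ℝ → ℝ}

theorem B_ge (h : 1 ≤ K) (j : ℕ) : j + 1 ≤ B K j := by
  induction j with
  | zero => simp [B]
  | succ j ih =>
    have j0 : (1 : ℝ) ≤ j + 1 := le_add_of_nonneg_left (Nat.cast_nonneg j)
    have := one_le_mul_of_one_le_of_one_le (one_le_mul_of_one_le_of_one_le (one_le_mul_of_one_le_of_one_le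
      (by linarith : 1 ≤ 8 * K) (one_le_pow₀ (n := 2) j0)) (j0.trans ih)) (one_le_exp (by linarith : 0 ≤ 2 * B K j))
    rw [B]; push_cast; linarith

theorem B_d (h : 1 ≤ K) (j : ℕ) : 0 ≤ B K (j + 1) - B K j := by
  have : 0 < B K j := lt_of_lt_of_le (by positivity) (B_ge h j)
  rw [B, add_sub_cancel_left]; positivity

theorem mm_eq {N : ℕ} {x : ℝ} (hx : |x| ≤ N + 1) : mm K x = 1 + ∑ j ∈ Finset.range N, tm K j x := by
  rw [mm, tsum_eq_sum fun j hj => ?_]
  have : (N : ℝ) ≤ j := by exact_mod_cast not_lt.1 (mt Finset.mem_range.2 hj)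
  have : x ^ 2 / (j + 1) ^ 2 ≤ 1 := (div_le_one (by positivity)).2 (sq_le_sq' (by linarith [(abs_le.1 hx).1]) (by linarith [(abs_le.1 hx).2]))
  rw [tm, smoothTransition.zero_of_nonpos (by nlinarith [exp_pos (B K j)]), mul_zero]

theorem mm_s : ContDiff ℝ ∞ (mm K) := contDiff_iff_contDiffAt.2 fun x => by
  obtain ⟨N, hN⟩ := exists_nat_gt |x|
  refine ContDiffAt.congr_of_eventuallyEq (f := fun x => 1 + ∑ j ∈ Finset.range N, tm K j x) (ContDiff.contDiffAt ?_)
    ((continuous_abs.continuousAt.eventually (gt_mem_nhds hN)).mono fun z hz => mm_eq (by linarith))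
  have := smoothTransition.contDiff (n := ⊤)
  unfold tm; fun_prop

theorem tm_nn (h : 1 ≤ K) (j : ℕ) (x : ℝ) : 0 ≤ tm K j x := mul_nonneg (B_d h j) (smoothTransition.nonneg _)
theorem mm_ge (h : 1 ≤ K) (x : ℝ) : 1 ≤ mm K x := le_add_of_nonneg_right (tsum_nonneg fun j => tm_nn h j x)

theorem mm_le (h : 1 ≤ K) {j : ℕ} {x : ℝ} (hx : |x| ≤ j + 1) : mm K x ≤ B K j := by
  have := Finset.sum_le_sum fun i (_ : i ∈ Finset.range j) => mul_le_of_le_one_right (B_d h i) (smoothTransition.le_one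
    (-2 * ((1 - x ^ 2 / (i + 1) ^ 2) * exp (B K i))))
  rw [Finset.sum_range_sub, B] at this
  rw [mm_eq hx]; unfold tm; linarith

theorem mm_big (h : 1 ≤ K) {j : ℕ} {x : ℝ} (hx : (1 - x ^ 2 / (j + 1) ^ 2) * exp (B K j) ≤ -1 / 2) :
    8 * K * (j + 1) ^ 2 * B K j * exp (2 * B K j) ≤ mm K x := by
  obtain ⟨N, hN⟩ := exists_nat_ge |x|
  have := Finset.single_le_sum (fun i _ => tm_nn h i x) (Finset.mem_range.2 (by omega : j < N + j + 1))
  rw [tm, smoothTransition.one_of_one_le (by linarith), mul_one, B, add_sub_cancel_left] at this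
  rw [mm_eq (N := N + j + 1) (by push_cast; linarith [Nat.cast_nonneg (α := ℝ) j])]; linarith

theorem upper (hK : 1 ≤ K) (hP : Psi K) (h : HK (fun x => 1 / mm K x) 0 0 k) (fc : Continuous f) (fs : HasCompactSupport f)
    (f0 : ∀ x, 0 ≤ f x) : ∃ C > 0, ∀ᶠ j : ℕ in atTop, ∀ x t, 0 < t →
      evol k f x t ≤ C * (exp (-(2 / ((j + 1) ^ 2 * B K j)) * t) + exp (-B K j)) := by
  obtain ⟨Ψ, Ψ1, Ψ2, d1, d2, p1, p2, p3, p4⟩ := hP
  obtain ⟨F, hF⟩ := fc.bounded_above_of_compact_support fs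
  obtain ⟨R, hR⟩ := CC.bd ⟨fc, fs⟩
  have F0 := (norm_nonneg _).trans (hF 0)
  refine ⟨2 * F + 1, by positivity, ?_⟩
  filter_upwards [tendsto_natCast_atTop_atTop.eventually_ge_atTop (2 * R)] with j hj x t t0
  have B1 := B_ge hK j
  have ml := fun x => mm_le hK (j := j) (x := x)
  have mb := fun x => mm_big hK (j := j) (x := x)
  have r1 : (1 : ℝ) ≤ j + 1 := le_add_of_nonneg_left (Nat.cast_nonneg j)
  replace hj : 2 * R ≤ j + 1 := by linarith
  rw [two_mul (B K j), exp_add] at mb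
  have e : exp (-B K j) * exp (B K j) = 1 := by rw [← exp_add]; simp
  have E1 := one_le_exp (by linarith : 0 ≤ B K j)
  have δ0 := exp_pos (-B K j)
  generalize exp (-B K j) = δ at *
  generalize exp (B K j) = E at *
  generalize B K j = b at *
  generalize (j + 1 : ℝ) = r at *
  obtain ⟨l, hl⟩ : ∃ l, l = 2 / (r ^ 2 * b) := ⟨_, rfl⟩
  have l0 : 0 < l := by rw [hl]; have : 0 < b := by linarith
                        positivity
  have l1 : l * (r ^ 2 * b) = 2 := by rw [hl]; field_simp [(by linarith : b ≠ 0)]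
  rw [← hl]
  have c : ∀ x : ℝ, HasDerivAt (fun x => (1 - x ^ 2 / r ^ 2) * E) (-(2 * x / r ^ 2) * E) x := fun x => by
    simpa using (((hasDerivAt_pow 2 x).div_const (r ^ 2)).const_sub 1).mul_const E
  have w0 : ∀ x : ℝ, -δ ≤ δ * Ψ ((1 - x ^ 2 / r ^ 2) * E) ∧ δ * Ψ ((1 - x ^ 2 / r ^ 2) * E) ≤ 1 := fun x =>
    ⟨by nlinarith [(p1 ((1 - x ^ 2 / r ^ 2) * E)).1], by
      have : 0 ≤ x ^ 2 / r ^ 2 := by positivity
      rcases le_or_gt ((1 - x ^ 2 / r ^ 2) * E) (-1 / 2) with a | a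
      · nlinarith [p3 _ a]
      · rw [(p2 _ a).1]; nlinarith⟩
  have D1 : ∀ t x : ℝ, HasDerivAt (fun x => (2 * F + 1) * (exp (-l * t) * (δ * Ψ ((1 - x ^ 2 / r ^ 2) * E)) + δ))
      ((2 * F + 1) * (exp (-l * t) * (Ψ1 ((1 - x ^ 2 / r ^ 2) * E) * -(2 * x / r ^ 2)))) x := fun t x =>
    ((((((d1 _).comp x (c x)).const_mul δ).const_mul _).add_const δ).const_mul _).congr_deriv (by
      linear_combination (2 * F + 1) * (exp (-l * t) * (Ψ1 ((1 - x ^ 2 / r ^ 2) * E) * -(2 * x / r ^ 2))) * e)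
  have D2 : ∀ t x : ℝ, HasDerivAt (fun x => (2 * F + 1) * (exp (-l * t) * (Ψ1 ((1 - x ^ 2 / r ^ 2) * E) * -(2 * x / r ^ 2))))
      ((2 * F + 1) * (exp (-l * t) * (Ψ2 ((1 - x ^ 2 / r ^ 2) * E) * E * (4 * (x ^ 2 / r ^ 2) / r ^ 2) -
        Ψ1 ((1 - x ^ 2 / r ^ 2) * E) * (2 / r ^ 2)))) x := fun t x =>
    (((((d2 _).comp x (c x)).fun_mul (((hasDerivAt_id x).const_mul 2).div_const (r ^ 2)).fun_neg).const_mul _).const_mul _).congr_deriv
      (by simp only [id, Function.comp]; ring)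
  have D3 : ∀ x t : ℝ, HasDerivAt (fun t => (2 * F + 1) * (exp (-l * t) * (δ * Ψ ((1 - x ^ 2 / r ^ 2) * E)) + δ))
      ((2 * F + 1) * (exp (-l * t) * (-l * (δ * Ψ ((1 - x ^ 2 / r ^ 2) * E))))) t := fun x t =>
    ((((((hasDerivAt_id t).const_mul (-l)).exp.mul_const _).add_const δ).const_mul _)).congr_deriv (by simp only [id]; ring)
  have E2 := fun t => funext fun x => (D1 t x).deriv
  have cΨ : Continuous Ψ := continuous_iff_continuousAt.2 fun s => (d1 s).continuousAt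
  refine ((h.2.2.2 f fc fs f0).2.2 (fun x t => (2 * F + 1) * (exp (-l * t) * (δ * Ψ ((1 - x ^ 2 / r ^ 2) * E)) + δ))
    ⟨Continuous.continuousOn (by unfold Function.uncurry; fun_prop), fun t _ => ⟨fun x => (D1 t x).differentiableAt,
      E2 t ▸ fun x => (D2 t x).differentiableAt, fun x => (D3 x t).differentiableAt⟩, fun x t t0 => mul_nonneg (by positivity) ?_,
      fun x t t0 => ?_⟩ (fun x => ?_) x t t0).trans (mul_le_mul_of_nonneg_left (add_le_add_left
        (mul_le_of_le_one_right (exp_pos _).le (w0 x).2) _) (by positivity))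
  · nlinarith [(w0 x).1, exp_pos (-l * t), exp_le_one_iff.2 (by nlinarith : -l * t ≤ 0)]
  · simp only [heat, E2, (D2 t x).deriv, (D3 x t).deriv, Pi.zero_apply, zero_mul, add_zero]
    have m1 := mm_ge hK x
    rw [sub_nonneg, one_div, inv_mul_le_iff₀ (by linarith), mul_left_comm (mm K x), mul_left_comm (mm K x)]
    refine mul_le_mul_of_nonneg_left (mul_le_mul_of_nonneg_left ?_ (exp_pos _).le) (by positivity)
    have y0 : 0 ≤ x ^ 2 / r ^ 2 := by positivity
    have i0 : 0 < 2 / r ^ 2 := by positivity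
    rcases le_or_gt ((1 - x ^ 2 / r ^ 2) * E) (-1 / 2) with a | a
    · have a1 := mb x a
      have a2 := mul_nonneg (p1 ((1 - x ^ 2 / r ^ 2) * E)).2.1 i0.le
      have a3 : 8 * K * E ≤ mm K x * (-l * (δ * Ψ ((1 - x ^ 2 / r ^ 2) * E))) := by
        have := mul_le_mul a1 (show l * δ / 2 ≤ -l * (δ * Ψ ((1 - x ^ 2 / r ^ 2) * E)) by
          nlinarith [p3 _ a, mul_pos l0 δ0]) (by positivity) (by linarith)
        refine le_trans (le_of_eq ?_) this
        linear_combination (-8 * K * E) * e + (-4 * K * E * E * δ) * l1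
      rcases lt_or_ge ((1 - x ^ 2 / r ^ 2) * E) (-1) with g | g
      · rw [p4 _ g]; nlinarith
      · have g1 : 4 * (x ^ 2 / r ^ 2) / r ^ 2 ≤ 8 := by
          rw [div_le_iff₀ (by positivity)]; nlinarith [one_le_pow₀ (n := 2) r1]
        have := mul_le_mul (mul_le_mul_of_nonneg_right (p1 ((1 - x ^ 2 / r ^ 2) * E)).2.2 (by linarith : 0 ≤ E)) g1
          (by positivity) (by positivity)
        linarith
    · obtain ⟨a1, a2, a3⟩ := p2 _ a
      rw [a1, a2, a3, show δ * ((1 - x ^ 2 / r ^ 2) * E) = 1 - x ^ 2 / r ^ 2 by linear_combination (1 - x ^ 2 / r ^ 2) * e]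
      rcases le_total (x ^ 2 / r ^ 2) 1 with g | g
      · have g1 := ml x (abs_le_of_sq_le_sq ((div_le_one (by positivity)).1 g) (by linarith))
        have g2 : 2 / r ^ 2 = l * b := by rw [div_eq_iff (by positivity)]; linarith
        nlinarith [mul_le_mul g1 (sub_le_self 1 y0) (by linarith) (by linarith)]
      · nlinarith [mul_nonneg (mul_nonneg (by linarith : 0 ≤ mm K x) l0.le) (sub_nonneg.2 g)]
  · simp only [mul_zero, exp_zero, one_mul]
    rcases le_total R |x| with a | a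
    · rw [hR x a]; exact mul_nonneg (by positivity) (by linarith [(w0 x).1])
    · have g : x ^ 2 / r ^ 2 ≤ 1 / 4 := by rw [div_le_iff₀ (by positivity), ← sq_abs]; nlinarith [abs_nonneg x]
      rw [(p2 _ (by nlinarith)).1, show δ * ((1 - x ^ 2 / r ^ 2) * E) = 1 - x ^ 2 / r ^ 2 by
        linear_combination (1 - x ^ 2 / r ^ 2) * e]
      nlinarith [(abs_le.1 (hF x)).2]

end Pool.Agent.H.MP_13e997_an
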