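import Pool.Agent.H.MP_13e997_an.B

open MeasureTheory Filter Topology Set Real
open scoped ContDiff

namespace Pool.Agent.H.MP_13e997_an

variable {K : ℝ} {a b c f : ℝ → ℝ} {k k' : ℝ → ℝ → ℝ → ℝ}

theorem tent (y r : ℝ) : Continuous (fun z => max 0 (r - |z - y|)) ∧ HasCompactSupport (fun z => max 0 (r - |z - y|)) ∧
    ∀ z, r ≤ |z - y| → max 0 (r - |z - y|) = 0 := by
  have f1 : ∀ z, r ≤ |z - y| → max 0 (r - |z - y|) = 0 := fun z hz => by simp [hz]
  exact ⟨by fun_prop, .intro (isCompact_Icc (a := y - r) (b := y + r)) fun z hz => f1 z (not_lt.1 fun e =>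
    hz ⟨by linarith [(abs_lt.1 e).1], by linarith [(abs_lt.1 e).2]⟩), f1⟩

theorem baire (h : HK a b c k) (s : Subcrit k) : ∃ f : ℝ → ℝ, Continuous f ∧ HasCompactSupport f ∧ (∀ x, 0 ≤ f x) ∧
    (∃ x, f x ≠ 0) ∧ IntegrableOn (evol k f 0) (Ioi 0) := by
  have ct : ∀ y, ContinuousOn (k 0 y) (Ioi 0) := fun y => h.2.1.comp (f := fun t => (0, y, t)) (by fun_prop) fun _ ht => ht
  obtain ⟨n, y, hy⟩ := nonempty_interior_of_iUnion_of_closed
    (f := fun n : ℕ => {y | ∫⁻ t in Ioi 0, ENNReal.ofReal (k 0 y t) ≤ n} ∪ {0}) (fun n => IsClosed.union (IsSeqClosed.isClosed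
      fun z y h1 h2 => le_trans (le_trans (setLIntegral_mono' measurableSet_Ioi fun t ht => (((ENNReal.continuous_ofReal.comp
        (h.cy 0 ht)).tendsto y).comp h2).liminf_eq.ge) (lintegral_liminf_le' fun i =>
          ((ct (z i)).aemeasurable measurableSet_Ioi).ennreal_ofReal)) (liminf_le_of_frequently_le' (.of_forall h1)))
      isClosed_singleton) (eq_univ_of_forall fun y => by
        by_cases e : y = 0
        · exact mem_iUnion.2 ⟨0, .inr e⟩
        · obtain ⟨n, hn⟩ := ENNReal.exists_nat_gt (s 0 y (Ne.symm e)).ne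
          exact mem_iUnion.2 ⟨n, .inl hn.le⟩)
  obtain ⟨r, r0, hr⟩ := Metric.mem_nhds_iff.1 (mem_interior_iff_mem_nhds.1 hy)
  obtain ⟨f1, f2, f3⟩ := tent y r
  have f0 : ∀ z, 0 ≤ max 0 (r - |z - y|) := fun z => le_max_left _ _
  refine ⟨_, f1, f2, f0, ⟨y, by simpa using r0⟩, (((h.2.2.2 _ f1 f2 f0).1.comp (f := fun t => (0, t)) (by fun_prop)
    fun t ht => ⟨trivial, le_of_lt ht⟩).aestronglyMeasurable measurableSet_Ioi), ?_⟩
  rw [hasFiniteIntegral_iff_ofReal ((ae_restrict_mem measurableSet_Ioi).mono fun t ht => h.nn f0 0 (le_of_lt ht)),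
    setLIntegral_congr_fun (g := fun t => ∫⁻ z, ENNReal.ofReal (max 0 (r - |z - y|)) * ENNReal.ofReal (k 0 z t)) measurableSet_Ioi
      fun t ht => by
        beta_reduce
        rw [evol, if_neg (ne_of_gt ht), ofReal_integral_eq_lintegral_ofReal (((h.cy 0 ht).fun_mul f1).integrable_of_hasCompactSupport
          f2.mul_left) (.of_forall fun z => mul_nonneg (h.1 0 z t ht).le (f0 z))]
        exact lintegral_congr fun z => by rw [mul_comm, ENNReal.ofReal_mul (f0 z)],
    lintegral_lintegral_swap]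
  · refine (lintegral_mono_ae (g := fun z => ENNReal.ofReal (max 0 (r - |z - y|)) * n) ?_).trans_lt ?_
    · filter_upwards [Measure.ae_ne volume 0] with z hz
      rw [lintegral_const_mul' _ _ ENNReal.ofReal_ne_top]
      rcases le_or_gt r |z - y| with e | e
      · simp [f3 z e]
      · exact mul_le_mul_right ((hr e).resolve_right hz) _
    · rw [lintegral_mul_const' _ _ (ENNReal.natCast_ne_top n)]
      exact ENNReal.mul_lt_top (f1.integrable_of_hasCompactSupport f2).lintegral_lt_top (ENNReal.natCast_lt_top n)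
  · rw [← Measure.restrict_univ (μ := (volume : Measure ℝ)), Measure.restrict_restrict measurableSet_Ioi, inter_univ,
      Measure.prod_restrict]
    refine AEMeasurable.mul (by fun_prop) (AEMeasurable.ennreal_ofReal (ContinuousOn.aemeasurable ?_
      (measurableSet_Ioi.prod .univ)))
    exact h.2.1.comp (f := fun p : ℝ × ℝ => (0, p.2, p.1)) (by fun_prop) fun _ hp => hp.1

theorem tM (hK : 1 ≤ K) : Tendsto (B K) atTop atTop :=
  tendsto_atTop_mono (B_ge hK) (tendsto_atTop_add_const_right _ _ tendsto_natCast_atTop_atTop)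

theorem crit (hK : 1 ≤ K) (hP : Psi K) (h : HK (fun x => 1 / mm K x) 0 0 k) : ¬ Subcrit k := fun s => by
  obtain ⟨f, fc, fs, f0, ⟨y, fy⟩, fi⟩ := baire h s
  obtain ⟨C, C0, hC⟩ := upper hK hP h fc fs f0
  obtain ⟨u1, ⟨u2, u3, u4⟩, -⟩ := h.2.2.2 f fc fs f0
  have u0 := fun x t => h.nn f0 x (t := t)
  have up : ∀ x, 0 < evol k f x 1 := fun x => by
    rw [evol, if_neg one_ne_zero]
    exact ((h.cy x one_pos).mul fc).integral_pos_of_hasCompactSupport_nonneg_nonzero fs.mul_left
      (fun z => mul_nonneg (h.1 x z 1 one_pos).le (f0 z)) (mul_ne_zero (h.1 x y 1 one_pos).ne' fy)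
  generalize evol k f = u at *
  have mc := (mm_s (K := K)).continuous
  have m1 := mm_ge hK
  have cx : ∀ t, 0 < t → Continuous (u · t) := fun t t0 => (u2 t t0).1.continuous
  have e2 : ∀ t, 0 < t → deriv (deriv (u · t)) = fun x => mm K x * deriv (u x) t := fun t t0 => funext fun x => by
    have := u4 x t t0
    have := m1 x
    simp only [heat, Pi.zero_apply, zero_mul, add_zero] at *
    field_simp at *; linarith
  have c2 : ∀ t, 0 < t → Continuous fun x => mm K x * deriv (u x) t := fun t t0 =>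
    mc.mul (u3.comp_continuous (f := fun x => (x, t)) (by fun_prop) fun _ => ⟨trivial, t0⟩)
  obtain ⟨c, c0, hc⟩ : ∃ c > 0, c = ∫ x in -1..1, u x 1 :=
    ⟨_, intervalIntegral.intervalIntegral_pos_of_pos ((cx 1 one_pos).intervalIntegrable _ _) up (by norm_num), rfl⟩
  have I0 : 0 ≤ ∫ t in Ioi 0, u 0 t := setIntegral_nonneg measurableSet_Ioi fun t ht => u0 0 t (le_of_lt ht)
  obtain ⟨R, hR⟩ : ∃ R, R = 1 + (2 * (∫ t in Ioi 0, u 0 t) + 1) / c := ⟨_, rfl⟩
  have R1 : 1 ≤ R := by rw [hR]; exact le_add_of_nonneg_right (by positivity)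
  have id1 : ∀ t, 0 < t → -2 * u 0 t ≤ ∫ x in -R..R, mm K x * deriv (u x) t * (R - |x|) := fun t t0 => by
    have i := ((c2 t t0).mul (by fun_prop : Continuous fun x : ℝ => R - |x|)).intervalIntegrable (μ := volume)
    have d := fun x => ((u2 t t0).1 x).hasDerivAt
    have dd := fun x => ((u2 t t0).2.1 x).hasDerivAt
    rw [e2 t t0] at dd
    have a1 := intervalIntegral.integral_eq_sub_of_hasDerivAt (a := 0) (b := R) (f := fun x => deriv (u · t) x * (R - x) + u x t)
      (fun x hx => (((dd x).fun_mul ((hasDerivAt_id x).const_sub R)).fun_add (d x)).congr_deriv (by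
        rw [uIcc_of_le (by linarith)] at hx; simp [abs_of_nonneg hx.1])) (i 0 R)
    have a2 := intervalIntegral.integral_eq_sub_of_hasDerivAt (a := -R) (b := 0) (f := fun x => deriv (u · t) x * (R + x) - u x t)
      (fun x hx => (((dd x).fun_mul ((hasDerivAt_id x).const_add R)).fun_sub (d x)).congr_deriv (by
        rw [uIcc_of_le (by linarith)] at hx; simp [abs_of_nonpos hx.2])) (i (-R) 0)
    have a3 := intervalIntegral.integral_add_adjacent_intervals (i (-R) 0) (i 0 R)
    simp only [Pi.mul_apply] at a1 a2 a3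
    rw [← a3, a1, a2]
    have := u0 R t t0.le
    have := u0 (-R) t t0.le
    simp; linarith
  have w0 : ∀ x ∈ Icc (-R) R, 0 ≤ mm K x * (R - |x|) := fun x hx =>
    mul_nonneg (by linarith [m1 x]) (sub_nonneg.2 (abs_le.2 hx))
  have wc : Continuous fun x => mm K x * (R - |x|) := by fun_prop
  have key : ∀ T, 1 ≤ T → 1 ≤ ∫ x in -R..R, mm K x * (R - |x|) * u x T := fun T T1 => by
    have hc2 : ContinuousOn (fun p : ℝ × ℝ => mm K p.1 * deriv (u p.1) p.2 * (R - |p.1|)) (Icc (-R) R ×ˢ Icc 1 T) :=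
      (ContinuousOn.mul (by fun_prop) (u3.mono fun p hp => ⟨trivial, one_pos.trans_le hp.2.1⟩)).mul (by fun_prop)
    have i := hc2.integrableOn_compact (μ := volume) (isCompact_Icc.prod isCompact_Icc)
    have sw := intervalIntegral_intervalIntegral_swap (F := fun x t => mm K x * deriv (u x) t * (R - |x|)) (a := -R) (b := R)
      (c := 1) (d := T) (i.mono_set (by rw [uIoc_of_le (by linarith), uIoc_of_le T1]; exact prod_mono Ioc_subset_Icc_self Ioc_subset_Icc_self))
    have a1 : ∀ x, ∫ t in 1..T, mm K x * deriv (u x) t * (R - |x|) = mm K x * (R - |x|) * u x T - mm K x * (R - |x|) * u x 1 :=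
      fun x => by
        rw [intervalIntegral.integral_mul_const, intervalIntegral.integral_const_mul, intervalIntegral.integral_deriv_eq_sub
          (fun t ht => (u2 t (by rw [uIcc_of_le T1] at ht; linarith [ht.1])).2.2 x) (ContinuousOn.intervalIntegrable
            (u3.comp (f := fun t => (x, t)) (by fun_prop) fun t ht => ⟨trivial, by
              rw [uIcc_of_le T1] at ht; exact one_pos.trans_le ht.1⟩))]
        ring
    simp only [a1] at sw
    rw [intervalIntegral.integral_sub ((wc.fun_mul (cx T (by linarith))).intervalIntegrable _ _)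
      ((wc.fun_mul (cx 1 one_pos)).intervalIntegrable _ _)] at sw
    have fi2 : IntervalIntegrable (u 0) volume 1 T := (intervalIntegrable_iff_integrableOn_Ioc_of_le T1).2
      (fi.mono_set fun t ht => one_pos.trans ht.1)
    have a2 := intervalIntegral.integral_mono_on T1 (fi2.const_mul (-2)) ((intervalIntegrable_iff_integrableOn_Icc_of_le T1).2 (by
      rw [IntegrableOn, Measure.volume_eq_prod, ← Measure.prod_restrict] at i
      simpa only [intervalIntegral.integral_of_le (by linarith : -R ≤ R), integral_Icc_eq_integral_Ioc, IntegrableOn] using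
        i.integral_prod_right)) fun t ht => id1 t (one_pos.trans_le ht.1)
    have a3 : ∫ t in 1..T, u 0 t ≤ ∫ t in Ioi 0, u 0 t := by
      rw [intervalIntegral.integral_of_le T1]
      exact setIntegral_mono_set fi ((ae_restrict_mem measurableSet_Ioi).mono fun t ht => u0 0 t (le_of_lt ht))
        (LE.le.eventuallyLE fun t ht => one_pos.trans ht.1)
    have a4 := intervalIntegral.integral_mono_interval (μ := volume) (f := fun x => mm K x * (R - |x|) * u x 1) (by linarith : -R ≤ -1)
      (by norm_num : (-1 : ℝ) ≤ 1) R1 ((ae_restrict_mem measurableSet_Ioc).mono fun x hx =>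
        mul_nonneg (w0 x (Ioc_subset_Icc_self hx)) (up x).le) ((wc.fun_mul (cx 1 one_pos)).intervalIntegrable _ _)
    have a5 := intervalIntegral.integral_mono_on (μ := volume) (by norm_num : (-1 : ℝ) ≤ 1)
      (((cx 1 one_pos).intervalIntegrable _ _).const_mul (R - 1)) ((wc.fun_mul (cx 1 one_pos)).intervalIntegrable _ _) fun x hx =>
        mul_le_mul_of_nonneg_right (by nlinarith [m1 x, abs_le.2 hx]) (up x).le
    rw [intervalIntegral.integral_const_mul] at a2 a5
    rw [← hc, hR, add_sub_cancel_left, div_mul_cancel₀ _ c0.ne', ← hR] at a5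
    linarith
  obtain ⟨W, hW⟩ : ∃ W, W = ∫ x in -R..R, mm K x * (R - |x|) := ⟨_, rfl⟩
  have t1 := ((tendsto_exp_neg_atTop_nhds_zero.comp (tM hK)).const_mul (W * C)).eventually (gt_mem_nhds (by simp : W * C * 0 < 1 / 2))
  obtain ⟨j, j1, j2⟩ := (hC.and t1).exists
  have B0 : 0 < B K j := lt_of_lt_of_le (by positivity) (B_ge hK j)
  have t2 := ((tendsto_exp_atBot.comp (tendsto_id.const_mul_atTop_of_neg (neg_lt_zero.2
    (by positivity : 0 < 2 / ((j + 1) ^ 2 * B K j))))).const_mul (W * C)).eventually (gt_mem_nhds (by simp : W * C * 0 < 1 / 2))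
  obtain ⟨T, T1, T2⟩ := (t2.and (eventually_ge_atTop 1)).exists
  have := (key T T2).trans (intervalIntegral.integral_mono_on (by linarith) ((wc.fun_mul (cx T (by linarith))).intervalIntegrable _ _)
    ((wc.intervalIntegrable _ _).mul_const _) fun x hx => mul_le_mul_of_nonneg_left (j1 x T (by linarith)) (w0 x hx))
  rw [intervalIntegral.integral_mul_const, ← hW] at this
  simp only [Function.comp, id] at T1 j2
  linarith

theorem main (hK : 1 ≤ K) (hP : Psi K) (h : HK (fun x => exp (-2 * x)) (fun x => exp (-2 * x)) 0 k)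
    (h' : HK (fun x => 1 / mm K x) 0 0 k') : ∃ᶠ t in atTop, ∃ x ∈ Icc (-2 : ℝ) 2, ∃ y ∈ Icc (-2 : ℝ) 2, k' x y t < k x y t := by
  intro no
  obtain ⟨t1, ht⟩ := eventually_atTop.1 no
  obtain ⟨f1, f2, f3⟩ := tent 0 2
  have f0 : ∀ z : ℝ, 0 ≤ max 0 (2 - |z - 0|) := fun z => le_max_left _ _
  obtain ⟨C, C0, hC⟩ := upper hK hP h' f1 f2 f0
  have := ((tendsto_pow_mul_exp_neg_atTop_nhds_zero 64).comp (tM hK)).const_mul (2 ^ 17 * C)
  rw [mul_zero] at this
  obtain ⟨j, ⟨j1, j2⟩, j3⟩ := (((this.eventually (gt_mem_nhds (by norm_num : (0 : ℝ) < 1 / 4))).and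
    ((tM hK).eventually_ge_atTop t1)).and hC).exists
  have B1 := B_ge hK j
  have r1 : (1 : ℝ) ≤ j + 1 := le_add_of_nonneg_left (Nat.cast_nonneg j)
  simp only [Function.comp] at j1
  generalize B K j = M at *
  generalize (j + 1 : ℝ) = r at *
  have r2 := one_le_pow₀ (n := 2) r1
  have T0 : 0 < r ^ 2 * M ^ 2 := by have : 0 < M := by linarith
                                    positivity
  have a := lower h f1 f2 f0 (fun x hx => le_max_of_le_right (by rw [sub_zero, abs_of_nonneg hx.1]; linarith [hx.2])) T0.le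
  have b := j3 (log (3 / 2)) _ T0
  have c : evol k (fun z => max 0 (2 - |z - 0|)) (log (3 / 2)) (r ^ 2 * M ^ 2) ≤
      evol k' (fun z => max 0 (2 - |z - 0|)) (log (3 / 2)) (r ^ 2 * M ^ 2) := by
    rw [evol, evol, if_neg T0.ne', if_neg T0.ne']
    refine integral_mono (((h.cy _ T0).mul f1).integrable_of_hasCompactSupport f2.mul_left)
      (((h'.cy _ T0).mul f1).integrable_of_hasCompactSupport f2.mul_left) fun z => ?_
    rcases le_total 2 |z - 0| with e | e
    · simp only [f3 z e, mul_zero, le_refl]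
    · exact mul_le_mul_of_nonneg_right (not_lt.1 fun g => ht _ (by nlinarith) ⟨_, ⟨by linarith [log_nonneg (by norm_num : (1 : ℝ) ≤ 3 / 2)],
        by linarith [log_le_sub_one_of_pos (by norm_num : (0 : ℝ) < 3 / 2)]⟩, z, abs_le.1 (by simpa using e), g⟩) (f0 z)
  rw [show -(2 / (r ^ 2 * M)) * (r ^ 2 * M ^ 2) = -(2 * M) by field_simp [(by linarith : M ≠ 0)]] at b
  have d := exp_le_exp.2 (by linarith : -(2 * M) ≤ -M)
  have e : 1 + r ^ 2 * M ^ 2 ≤ 2 * M ^ 4 := by
    nlinarith [one_le_pow₀ (n := 4) (r1.trans B1), mul_le_mul_of_nonneg_right (pow_le_pow_left₀ (by linarith) B1 2) (sq_nonneg M)]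
  have g := pow_le_pow_left₀ (by positivity) e 16
  have i := (a.trans c).trans b
  rw [div_le_iff₀ (by positivity)] at i
  have l := mul_le_mul (show C * (exp (-(2 * M)) + exp (-M)) ≤ C * (2 * exp (-M)) by nlinarith) g (by positivity) (by positivity)
  nlinarith

end Pool.Agent.H.MP_13e997_an
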